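import Pool.Agent.H92.EZ.Targets
import Pool.Agent.H81.GT.SHP

/-!
Energy of the original wave near a Lorentz quadric (MP_ee74d2_an): the row EZT, the initial
positions far from the plank. Page H92_SP.md.
-/

set_option autoImplicit false

namespace Pool.Agent.H36.EZ

open MeasureTheory Set FourierTransform
open scoped ENNReal NNReal RealInnerProductSpace
open Pool.Agent.H83.LS
open Pool.Agent.H83.G (Z Lo wt)
open Pool.Agent.H81.GT (tz xz zt SymE IsX Ua Kt ac Wz Th)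
open Pool.Agent.H92.EZ

private instance haarY {m : ℕ} : (volume : Measure (EE m × ℝ)).IsAddHaarMeasure :=
  inferInstanceAs ((volume : Measure (EE m)).prod (volume : Measure ℝ)).IsAddHaarMeasure

private instance haarZ {m : ℕ} : (volume : Measure (Z m)).IsAddHaarMeasure :=
  inferInstanceAs ((volume : Measure ℝ).prod (volume : Measure (EE m × ℝ))).IsAddHaarMeasure

/-- the data outside `E` -/
private theorem tail_pt (hPLE : T_PLE) {n : ℕ} {κ : ℝ} {b : EE (n + 1) → ℂ} (hb : SymE n κ b)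
    {A K t : ℝ} {f : EE (n + 1) → ℂ} (hf : BCd A f) (hA : 0 ≤ A) {E : Set (EE (n + 1))}
    (hE : MeasurableSet E) (x : EE (n + 1))
    (hK : ∫⁻ u in {u | x - u ∉ E}, ‖Kt b t u‖ₑ ≤ ENNReal.ofReal K) :
    ‖Ua b t (Eᶜ.indicator f) x‖ₑ ≤ ENNReal.ofReal (A * K) := by
  obtain ⟨-, hf2, -⟩ := Pool.Agent.H81.GT.Ua_split hPLE hb t hf hE
  rw [Pool.Agent.H81.GT.Ua_conv hb hPLE t hf2]
  set U : Set (EE (n + 1)) := {u | x - u ∉ E} with hU
  have hUm : MeasurableSet U := (measurable_const.sub measurable_id) hE.compl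
  calc ‖∫ y, Kt b t (x - y) * Eᶜ.indicator f y‖ₑ
      ≤ ∫⁻ y, ‖Kt b t (x - y) * Eᶜ.indicator f y‖ₑ := enorm_integral_le_lintegral_enorm _
    _ ≤ ∫⁻ y, (U.indicator fun u => ‖Kt b t u‖ₑ * ENNReal.ofReal A) (x - y) := by
        refine lintegral_mono fun y => ?_
        by_cases hy : y ∈ E
        · have : Eᶜ.indicator f y = 0 := indicator_of_notMem (by simpa using hy) _
          rw [this, mul_zero, enorm_zero]
          exact zero_le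
        · have hyU : x - y ∈ U := by
            show x - (x - y) ∉ E
            rw [sub_sub_cancel]
            exact hy
          rw [indicator_of_mem (show y ∈ Eᶜ from hy), indicator_of_mem hyU, enorm_mul]
          gcongr
          rw [← ofReal_norm]
          exact ENNReal.ofReal_le_ofReal (hf.2.1 y)
    _ = ∫⁻ u, (U.indicator fun u => ‖Kt b t u‖ₑ * ENNReal.ofReal A) u :=
        lintegral_sub_left_eq_self _ x
    _ = (∫⁻ u in U, ‖Kt b t u‖ₑ) * ENNReal.ofReal A := by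
        rw [lintegral_indicator hUm, lintegral_mul_const' _ _ ENNReal.ofReal_ne_top]
    _ ≤ ENNReal.ofReal K * ENNReal.ofReal A := by gcongr
    _ = _ := by rw [mul_comm, ← ENNReal.ofReal_mul hA]

/-- numerology -/
private theorem num {n N Nd B : ℕ} {R L δ : ℝ} (hR : 1 ≤ R) (hL : 0 ≤ L)
    (hNd : (3 * (n : ℝ) + 8 + B) ≤ δ * Nd) (hN : 3 * n + 9 + Nd ≤ N) {ρ : ℝ}
    (hρ : ρ = R ^ δ ∨ ρ = 1 ∧ R ^ δ < L) :
    ((ρ ^ Nd)⁻¹) ^ 2 * (1 + L) ^ (2 * n + 6) * ((1 + L) ^ N)⁻¹ ≤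
      (R ^ (3 * n + 8 + B))⁻¹ * ((1 + L) ^ (n + 3))⁻¹ := by
  have hR0 : 0 < R := by linarith
  have hL1 : 1 ≤ 1 + L := by linarith
  have hL0 : 0 < 1 + L := by linarith
  have hQ : R ^ (3 * n + 8 + B) ≤ (R ^ δ) ^ Nd := by
    rw [← Real.rpow_natCast, ← Real.rpow_natCast, ← Real.rpow_mul hR0.le]
    apply Real.rpow_le_rpow_of_exponent_le hR
    push_cast
    exact hNd
  have hQ1 : 1 ≤ R ^ (3 * n + 8 + B) := one_le_pow₀ hR
  have hQ0 : 0 < R ^ (3 * n + 8 + B) := by positivity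
  have e1 : (1 + L) ^ (2 * n + 6) * ((1 + L) ^ (3 * n + 9))⁻¹ = ((1 + L) ^ (n + 3))⁻¹ := by
    rw [show 3 * n + 9 = (2 * n + 6) + (n + 3) by ring, pow_add (1 + L) (2 * n + 6) (n + 3)]
    field_simp
  rcases hρ with hρ | ⟨hρ, hLR⟩
  · have h1 : (ρ ^ Nd)⁻¹ ≤ (R ^ (3 * n + 8 + B))⁻¹ := by
      rw [hρ]
      exact inv_anti₀ hQ0 hQ
    have h0 : 0 ≤ (ρ ^ Nd)⁻¹ := by
      rw [hρ]
      positivity
    have h2 : ((ρ ^ Nd)⁻¹) ^ 2 ≤ (R ^ (3 * n + 8 + B))⁻¹ := by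
      have h3 : (R ^ (3 * n + 8 + B))⁻¹ ≤ 1 := inv_le_one_of_one_le₀ hQ1
      calc ((ρ ^ Nd)⁻¹) ^ 2 = (ρ ^ Nd)⁻¹ * (ρ ^ Nd)⁻¹ := sq _
        _ ≤ (R ^ (3 * n + 8 + B))⁻¹ * 1 := mul_le_mul h1 (h1.trans h3) h0 (by positivity)
        _ = _ := mul_one _
    have h4 : ((1 + L) ^ N)⁻¹ ≤ ((1 + L) ^ (3 * n + 9))⁻¹ :=
      inv_anti₀ (by positivity) (pow_le_pow_right₀ hL1 (by omega))
    calc ((ρ ^ Nd)⁻¹) ^ 2 * (1 + L) ^ (2 * n + 6) * ((1 + L) ^ N)⁻¹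
        ≤ (R ^ (3 * n + 8 + B))⁻¹ * (1 + L) ^ (2 * n + 6) * ((1 + L) ^ (3 * n + 9))⁻¹ := by
          gcongr
      _ = _ := by rw [mul_assoc, e1]
  · have h1 : R ^ (3 * n + 8 + B) ≤ (1 + L) ^ Nd := by
      refine hQ.trans ?_
      gcongr
      linarith
    have h4 : ((1 + L) ^ N)⁻¹ ≤ ((1 + L) ^ (3 * n + 9))⁻¹ * (R ^ (3 * n + 8 + B))⁻¹ := by
      rw [← mul_inv]
      refine inv_anti₀ (by positivity) ?_
      calc (1 + L) ^ (3 * n + 9) * R ^ (3 * n + 8 + B)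
          ≤ (1 + L) ^ (3 * n + 9) * (1 + L) ^ Nd := by gcongr
        _ = (1 + L) ^ (3 * n + 9 + Nd) := (pow_add _ _ _).symm
        _ ≤ (1 + L) ^ N := pow_le_pow_right₀ hL1 hN
    rw [hρ]
    simp only [one_pow, inv_one, one_mul]
    calc (1 + L) ^ (2 * n + 6) * ((1 + L) ^ N)⁻¹
        ≤ (1 + L) ^ (2 * n + 6) * (((1 + L) ^ (3 * n + 9))⁻¹ * (R ^ (3 * n + 8 + B))⁻¹) := by
          gcongr
      _ = _ := by rw [← mul_assoc, e1, mul_comm]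

/-- the bound at one point -/
private theorem pointwise {n N Nd B : ℕ} {R A L T ρ δ Ct Cx : ℝ} (hR : 1 ≤ R) (hL : 0 ≤ L)
    (hT0 : 0 ≤ T) (hT : T ≤ 86 * R * (1 + L))
    (hNd : (3 * (n : ℝ) + 8 + B) ≤ δ * Nd) (hN : 3 * n + 9 + Nd ≤ N)
    (hρ : ρ = R ^ δ ∨ ρ = 1 ∧ R ^ δ < L) :
    (A * (Ct * T ^ (n + 3) * (ρ ^ Nd)⁻¹) * Cx) ^ 2 * ((1 + L) ^ N)⁻¹ ≤
      (Ct * Cx) ^ 2 * 86 ^ (2 * n + 6) * (A ^ 2 * (R ^ (n + 2 + B))⁻¹) *
        ((1 + L) ^ (n + 3))⁻¹ := by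
  have hR0 : 0 < R := by linarith
  have hL0 : 0 < 1 + L := by linarith
  have h1 := num (n := n) (N := N) (Nd := Nd) (B := B) hR hL hNd hN hρ
  have h2 : (T ^ (n + 3)) ^ 2 ≤ 86 ^ (2 * n + 6) * R ^ (2 * n + 6) * (1 + L) ^ (2 * n + 6) := by
    rw [← pow_mul, show (n + 3) * 2 = 2 * n + 6 by ring, ← mul_pow, ← mul_pow]
    gcongr
  have e1 : R ^ (2 * n + 6) * (R ^ (3 * n + 8 + B))⁻¹ = (R ^ (n + 2 + B))⁻¹ := by
    rw [show 3 * n + 8 + B = (2 * n + 6) + (n + 2 + B) by ring,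
      pow_add R (2 * n + 6) (n + 2 + B)]
    field_simp
  calc (A * (Ct * T ^ (n + 3) * (ρ ^ Nd)⁻¹) * Cx) ^ 2 * ((1 + L) ^ N)⁻¹
      = ((Ct * Cx) ^ 2 * A ^ 2 * ((ρ ^ Nd)⁻¹) ^ 2 * ((1 + L) ^ N)⁻¹) * (T ^ (n + 3)) ^ 2 := by
        ring
    _ ≤ ((Ct * Cx) ^ 2 * A ^ 2 * ((ρ ^ Nd)⁻¹) ^ 2 * ((1 + L) ^ N)⁻¹) *
        (86 ^ (2 * n + 6) * R ^ (2 * n + 6) * (1 + L) ^ (2 * n + 6)) := by gcongr
    _ = ((Ct * Cx) ^ 2 * 86 ^ (2 * n + 6) * A ^ 2 * R ^ (2 * n + 6)) *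
        (((ρ ^ Nd)⁻¹) ^ 2 * (1 + L) ^ (2 * n + 6) * ((1 + L) ^ N)⁻¹) := by ring
    _ ≤ ((Ct * Cx) ^ 2 * 86 ^ (2 * n + 6) * A ^ 2 * R ^ (2 * n + 6)) *
        ((R ^ (3 * n + 8 + B))⁻¹ * ((1 + L) ^ (n + 3))⁻¹) := by gcongr
    _ = (Ct * Cx) ^ 2 * 86 ^ (2 * n + 6) * (A ^ 2 * (R ^ (2 * n + 6) *
        (R ^ (3 * n + 8 + B))⁻¹)) * ((1 + L) ^ (n + 3))⁻¹ := by ring
    _ = _ := by rw [e1]

set_option linter.unusedVariables false in
theorem pf_EZT (COV : Pool.Agent.H81.GT.T_COV) (ACS : Pool.Agent.H81.GT.T_ACS)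
    (TAI : Pool.Agent.H81.GT.T_TAI) (PLE : Pool.Agent.H83.LS.T_PLE)
    (LOA : Pool.Agent.H83.G.T_LOA) (LOB : Pool.Agent.H83.G.T_LOB)
    (LOI : Pool.Agent.H83.G.T_LOI) (WT1 : Pool.Agent.H83.G.T_WT1)
    (WT2 : Pool.Agent.H83.G.T_WT2) : T_EZT := by
  intro n B κ δ a X χ hn hκ ha hX hδ
  obtain ⟨Nd, hNd'⟩ := exists_nat_ge ((3 * (n : ℝ) + 8 + B) / δ)
  have hNd : (3 * (n : ℝ) + 8 + B) ≤ δ * Nd := by
    rw [div_le_iff₀ hδ] at hNd'
    linarith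
  refine ⟨3 * n + 9 + Nd, fun N hN => ?_⟩
  obtain ⟨Ct, hCt, hT⟩ := TAI n Nd κ a hn hκ ha
  obtain ⟨Cx, hCx, hχ⟩ := hX.2.2.2.2.2 0
  obtain ⟨Cw, hCw, -, -⟩ := WT2 n (n + 3) le_rfl
  have hχ' : ∀ s, ‖χ s‖ ≤ Cx := by
    intro s
    have := hχ s
    simpa using this
  refine ⟨(Ct * Cx) ^ 2 * 86 ^ (2 * n + 6) * (Cw + 1), by positivity, ?_⟩
  intro R A s η z f E hR hf hA hs hs1 hRs hη hz hE hcl
  have hR0 : 0 < R := by linarith
  obtain ⟨hb, -, -⟩ := ACS n κ s η a hκ ha hs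
  -- sizes
  have hs2 : s⁻¹ ^ 2 ≤ R := by
    rw [inv_pow, inv_le_iff_one_le_mul₀ (by positivity)]
    linarith
  have hs1' : 1 ≤ s⁻¹ := (one_le_inv₀ hs).2 hs1
  have hs3 : s⁻¹ ≤ R := by
    refine le_trans ?_ hs2
    rw [sq]
    exact le_mul_of_one_le_left (by linarith) hs1'
  set M : ℝ := (Ct * Cx) ^ 2 * 86 ^ (2 * n + 6) * (A ^ 2 * (R ^ (n + 2 + B))⁻¹) with hM
  have hM0 : 0 ≤ M := by positivity
  have hpt : ∀ z' : Z n, ‖Ua (ac a η s) (tz z') (Eᶜ.indicator f) (xz z') * χ (tz z' / R)‖ₑ ^ 2 *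
      ENNReal.ofReal (wt N (Lo η s (z' - z))) ≤
      ENNReal.ofReal M * ENNReal.ofReal (wt (n + 3) (Lo η s (z' - z))) := by
    intro z'
    set L : ℝ := ‖Lo η s (z' - z)‖ with hL
    have hL0 : 0 ≤ L := norm_nonneg _
    have hT1 : 1 + |tz z'| + s⁻¹ ≤ 86 * R * (1 + L) := by
      have h1 := (LOB n 5 (by norm_num)).2.1 η s (z' - z) hη hs hs1
      have h2 := Pool.Agent.H81.GT.tz_norm (z' - z)
      have h3 : tz z' = tz z + tz (z' - z) := by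
        unfold tz
        simp only [Prod.fst_sub, Prod.snd_sub]
        ring
      have h4 : |tz z'| ≤ |tz z| + |tz (z' - z)| := by
        rw [h3]
        exact abs_add_le _ _
      have h5 : (1 + 5 : ℝ) ^ 2 * s⁻¹ ^ 2 * L ≤ 36 * R * L := by
        have : s⁻¹ ^ 2 * L ≤ R * L := mul_le_mul_of_nonneg_right hs2 hL0
        calc (1 + 5 : ℝ) ^ 2 * s⁻¹ ^ 2 * L = 36 * (s⁻¹ ^ 2 * L) := by ring
          _ ≤ 36 * (R * L) := by linarith
          _ = 36 * R * L := by ring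
      have h6 : 0 ≤ R * L := by positivity
      have h7 : 86 * R * (1 + L) = 86 * R + 86 * (R * L) := by ring
      have h8 : 36 * R * L = 36 * (R * L) := by ring
      rw [h7]
      linarith
    have hT0 : 0 ≤ 1 + |tz z'| + s⁻¹ := by positivity
    -- the choice of `ρ`
    obtain ⟨ρ, hρ1, hρ, hρU⟩ : ∃ ρ : ℝ, 1 ≤ ρ ∧ (ρ = R ^ δ ∨ ρ = 1 ∧ R ^ δ < L) ∧
        ∀ x ∈ {u | xz z' - u ∉ E}, ∀ θ ∈ Th η s, ρ ≤ Wz s (zt x (tz z')) θ := by
      rcases le_or_gt L (R ^ δ) with hLR | hLR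
      · refine ⟨R ^ δ, Real.one_le_rpow hR hδ.le, Or.inl rfl, ?_⟩
        intro u hu θ hθ
        by_contra hcon
        apply hu
        refine hcl z' (xz z' - u) θ hθ hLR ?_
        have e1 : z' - zt (xz z' - u) 0 = zt u (tz z') := by
          have e2 : z' = zt (xz z') (tz z') := ((COV n).2.1 z').symm
          calc z' - zt (xz z' - u) 0 = zt (xz z') (tz z') - zt (xz z' - u) 0 := by rw [← e2]
            _ = zt u (tz z') := by
                rw [Pool.Agent.H81.GT.zt_sub]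
                congr 1
                · abel
                · ring
        rw [e1]
        exact (not_le.1 hcon).le
      · refine ⟨1, le_rfl, Or.inr ⟨rfl, hLR⟩, ?_⟩
        intro u _ θ _
        unfold Pool.Agent.H81.GT.Wz
        have h1 : 0 ≤ Pool.Agent.H81.GT.sg s (zt u (tz z')).2.2 := by
          unfold Pool.Agent.H81.GT.sg
          positivity
        have h2 := abs_nonneg (Pool.Agent.H81.GT.Qz (zt u (tz z')) θ)
        have h3 : 0 ≤ Pool.Agent.H81.GT.sg s (zt u (tz z')).2.2 *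
            ‖Pool.Agent.H81.GT.Yz (zt u (tz z')) θ‖ := mul_nonneg h1 (norm_nonneg _)
        linarith
    have hUm : MeasurableSet {u | xz z' - u ∉ E} :=
      (measurable_const.sub measurable_id) hE.compl
    have h1 := tail_pt PLE hb hf hA hE (xz z') (hT η s ρ (tz z') _ hs hs1 hρ1 hUm hρU)
    have h2 : ‖Ua (ac a η s) (tz z') (Eᶜ.indicator f) (xz z') * χ (tz z' / R)‖ₑ ≤
        ENNReal.ofReal (A * (Ct * (1 + |tz z'| + s⁻¹) ^ (n + 3) * (ρ ^ Nd)⁻¹) * Cx) := by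
      rw [enorm_mul, ENNReal.ofReal_mul (by positivity)]
      refine mul_le_mul' h1 ?_
      rw [← ofReal_norm]
      exact ENNReal.ofReal_le_ofReal (hχ' _)
    calc ‖Ua (ac a η s) (tz z') (Eᶜ.indicator f) (xz z') * χ (tz z' / R)‖ₑ ^ 2 *
          ENNReal.ofReal (wt N (Lo η s (z' - z)))
        ≤ ENNReal.ofReal (A * (Ct * (1 + |tz z'| + s⁻¹) ^ (n + 3) * (ρ ^ Nd)⁻¹) * Cx) ^ 2 *
          ENNReal.ofReal (wt N (Lo η s (z' - z))) := by gcongr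
      _ = ENNReal.ofReal ((A * (Ct * (1 + |tz z'| + s⁻¹) ^ (n + 3) * (ρ ^ Nd)⁻¹) * Cx) ^ 2 *
          wt N (Lo η s (z' - z))) := by
          rw [← ENNReal.ofReal_pow (by positivity), ← ENNReal.ofReal_mul (by positivity)]
      _ ≤ ENNReal.ofReal (M * wt (n + 3) (Lo η s (z' - z))) := by
          apply ENNReal.ofReal_le_ofReal
          exact pointwise hR hL0 hT0 hT1 hNd hN hρ
      _ = _ := ENNReal.ofReal_mul hM0
  -- integration
  have hint : ∫⁻ z' : Z n, ENNReal.ofReal (wt (n + 3) (Lo η s (z' - z))) ≤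
      ENNReal.ofReal (s⁻¹ ^ (n + 2)) * Cw := by
    have e1 : ∫⁻ z' : Z n, ENNReal.ofReal (wt (n + 3) (Lo η s (z' - z))) =
        ∫⁻ z' : Z n, ENNReal.ofReal (wt (n + 3) (Lo η s z')) :=
      lintegral_sub_right_eq_self (fun z' : Z n => ENNReal.ofReal (wt (n + 3) (Lo η s z'))) z
    rw [e1, (LOI n η s hs).1 fun y : Z n => ENNReal.ofReal (wt (n + 3) y)]
    gcongr
    have h1 := hCw 1 0 one_pos
    simpa using h1
  calc ∫⁻ z', ‖Ua (ac a η s) (tz z') (Eᶜ.indicator f) (xz z') * χ (tz z' / R)‖ₑ ^ 2 *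
        ENNReal.ofReal (wt N (Lo η s (z' - z)))
      ≤ ∫⁻ z', ENNReal.ofReal M * ENNReal.ofReal (wt (n + 3) (Lo η s (z' - z))) :=
        lintegral_mono fun z' => hpt z'
    _ = ENNReal.ofReal M * ∫⁻ z', ENNReal.ofReal (wt (n + 3) (Lo η s (z' - z))) :=
        lintegral_const_mul' _ _ ENNReal.ofReal_ne_top
    _ ≤ ENNReal.ofReal M * (ENNReal.ofReal (s⁻¹ ^ (n + 2)) * Cw) := by gcongr
    _ = ENNReal.ofReal (M * (s⁻¹ ^ (n + 2) * Cw)) := by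
        rw [ENNReal.ofReal_mul (p := M) hM0, ENNReal.ofReal_mul (p := s⁻¹ ^ (n + 2))
          (by positivity), ENNReal.ofReal_coe_nnreal]
    _ ≤ _ := by
        apply ENNReal.ofReal_le_ofReal
        have h1 : s⁻¹ ^ (n + 2) ≤ R ^ (n + 2) := by gcongr
        have h2 : (R ^ (n + 2 + B))⁻¹ * R ^ (n + 2) = R⁻¹ ^ B := by
          rw [pow_add, inv_pow]
          field_simp
        calc M * (s⁻¹ ^ (n + 2) * Cw) ≤ M * (R ^ (n + 2) * (Cw + 1)) := by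
              gcongr
              linarith
          _ = (Ct * Cx) ^ 2 * 86 ^ (2 * n + 6) * (Cw + 1) *
              (((R ^ (n + 2 + B))⁻¹ * R ^ (n + 2)) * A ^ 2) := by
              rw [hM]
              ring
          _ = _ := by rw [h2]

end Pool.Agent.H36.EZ
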